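import Mathlib

set_option autoImplicit false

namespace Q116.Golden

open Matrix Finset

variable {n : ℕ}

/-- `U diag(w) Uᵀ` -/
noncomputable def D (U : Matrix (Fin n) (Fin n) ℝ) (w : Fin n → ℝ) : Matrix (Fin n) (Fin n) ℝ :=
  U * diagonal w * Uᵀ

theorem D_apply (U : Matrix (Fin n) (Fin n) ℝ) (w : Fin n → ℝ) (i j : Fin n) :
    D U w i j = ∑ s, w s * (U i s * U j s) := by
  unfold D
  rw [Matrix.mul_apply]
  apply Finset.sum_congr rfl
  intro s _
  rw [Matrix.mul_diagonal, Matrix.transpose_apply]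
  ring

theorem D_mul (U : Matrix (Fin n) (Fin n) ℝ) (hU : Uᵀ * U = 1) (w w' : Fin n → ℝ) :
    D U w * D U w' = D U (fun s => w s * w' s) := by
  unfold D
  calc U * diagonal w * Uᵀ * (U * diagonal w' * Uᵀ)
      = U * diagonal w * (Uᵀ * U) * diagonal w' * Uᵀ := by simp only [Matrix.mul_assoc]
    _ = _ := by rw [hU, Matrix.mul_one, Matrix.mul_assoc U, Matrix.diagonal_mul_diagonal]

theorem D_trace (U : Matrix (Fin n) (Fin n) ℝ) (hU : Uᵀ * U = 1) (w : Fin n → ℝ) :
    (D U w).trace = ∑ s, w s := by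
  unfold D
  rw [Matrix.trace_mul_comm, ← Matrix.mul_assoc, hU, Matrix.one_mul, Matrix.trace_diagonal]

theorem D_symm (U : Matrix (Fin n) (Fin n) ℝ) (w : Fin n → ℝ) (i j : Fin n) :
    D U w i j = D U w j i := by
  rw [D_apply, D_apply]
  exact Finset.sum_congr rfl fun s _ => by ring

theorem D_row (U : Matrix (Fin n) (Fin n) ℝ) (hU : Uᵀ * U = 1) (w : Fin n → ℝ) (i : Fin n) :
    ∑ j, D U w i j ^ 2 = ∑ s, w s ^ 2 * (U i s * U i s) := by
  have h1 : ∑ j, D U w i j ^ 2 = (D U w * D U w) i i := by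
    rw [Matrix.mul_apply]
    exact Finset.sum_congr rfl fun j _ => by rw [D_symm U w j i]; ring
  rw [h1, D_mul U hU, D_apply]
  exact Finset.sum_congr rfl fun s _ => by ring

theorem U_row (U : Matrix (Fin n) (Fin n) ℝ) (hU : U * Uᵀ = 1) (i : Fin n) :
    ∑ s, U i s * U i s = 1 := by
  have := congrFun (congrFun hU i) i
  rw [Matrix.mul_apply, Matrix.one_apply_eq] at this
  rw [← this]
  exact Finset.sum_congr rfl fun s _ => by rw [Matrix.transpose_apply]

theorem D_entry_le (U : Matrix (Fin n) (Fin n) ℝ) (hU : Uᵀ * U = 1) (hU' : U * Uᵀ = 1)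
    (w : Fin n → ℝ) (c : ℝ) (hw : ∀ s, w s ^ 2 ≤ c) (i j : Fin n) : D U w i j ^ 2 ≤ c := by
  have h1 : D U w i j ^ 2 ≤ ∑ j, D U w i j ^ 2 :=
    Finset.single_le_sum (f := fun j => D U w i j ^ 2) (fun _ _ => sq_nonneg _)
      (Finset.mem_univ j)
  refine h1.trans ?_
  rw [D_row U hU]
  calc ∑ s, w s ^ 2 * (U i s * U i s) ≤ ∑ s, c * (U i s * U i s) :=
        Finset.sum_le_sum fun s _ => mul_le_mul_of_nonneg_right (hw s) (mul_self_nonneg _)
    _ = c := by rw [← Finset.mul_sum, U_row U hU', mul_one]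

theorem D_frob (U : Matrix (Fin n) (Fin n) ℝ) (hU : Uᵀ * U = 1) (w : Fin n → ℝ) :
    ∑ i, ∑ j, D U w i j ^ 2 = ∑ s, w s ^ 2 := by
  simp_rw [D_row U hU]
  rw [Finset.sum_comm]
  apply Finset.sum_congr rfl
  intro s _
  rw [← Finset.mul_sum]
  have := congrFun (congrFun hU s) s
  rw [Matrix.mul_apply, Matrix.one_apply_eq] at this
  simp only [Matrix.transpose_apply] at this
  rw [this, mul_one]

/-- Orthogonal diagonalisation of a real symmetric matrix. -/
theorem exists_D (A : Matrix (Fin n) (Fin n) ℝ) (hA : A.IsHermitian) :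
    ∃ U : Matrix (Fin n) (Fin n) ℝ, Uᵀ * U = 1 ∧ U * Uᵀ = 1 ∧ A = D U hA.eigenvalues := by
  refine ⟨hA.eigenvectorUnitary, ?_, ?_, ?_⟩
  · have := Unitary.coe_star_mul_self hA.eigenvectorUnitary
    simpa [Matrix.star_eq_conjTranspose] using this
  · have := Unitary.coe_mul_star_self hA.eigenvectorUnitary
    simpa [Matrix.star_eq_conjTranspose] using this
  · have := hA.spectral_theorem
    rw [Unitary.conjStarAlgAut_apply] at this
    unfold D
    conv_lhs => rw [this]
    simp [Matrix.star_eq_conjTranspose]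

/-- `(tr N)² ≤ rank N · ‖N‖²` for symmetric `N`. -/
theorem trace_sq_le (N : Matrix (Fin n) (Fin n) ℝ) (hN : N.IsHermitian) (R : ℕ)
    (hR : N.rank ≤ R) : N.trace ^ 2 ≤ R * ∑ i, ∑ j, N i j ^ 2 := by
  classical
  obtain ⟨U, h1, h2, h3⟩ := exists_D N hN
  have h4 : N.trace = ∑ s, hN.eigenvalues s := by
    conv_lhs => rw [h3]
    exact D_trace U h1 _
  have h5 : ∑ i, ∑ j, N i j ^ 2 = ∑ s, hN.eigenvalues s ^ 2 := by
    conv_lhs => rw [h3]
    exact D_frob U h1 _
  rw [h4, h5]
  have h6 : ∑ s, hN.eigenvalues s = ∑ s ∈ univ.filter (fun s => hN.eigenvalues s ≠ 0),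
      hN.eigenvalues s := by
    symm
    apply Finset.sum_filter_of_ne
    intro s _ h
    exact h
  have h7 : ((univ.filter (fun s => hN.eigenvalues s ≠ 0)).card : ℝ) ≤ R := by
    have : (univ.filter (fun s => hN.eigenvalues s ≠ 0)).card = N.rank := by
      rw [hN.rank_eq_card_non_zero_eigs, Fintype.card_subtype]
    rw [this]
    exact_mod_cast hR
  rw [h6]
  calc (∑ s ∈ univ.filter (fun s => hN.eigenvalues s ≠ 0), hN.eigenvalues s) ^ 2
      ≤ ((univ.filter (fun s => hN.eigenvalues s ≠ 0)).card : ℝ) *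
        ∑ s ∈ univ.filter (fun s => hN.eigenvalues s ≠ 0), hN.eigenvalues s ^ 2 :=
        sq_sum_le_card_mul_sum_sq
    _ ≤ R * ∑ s, hN.eigenvalues s ^ 2 := by
        apply mul_le_mul h7 ?_ (Finset.sum_nonneg fun _ _ => sq_nonneg _) (by positivity)
        exact Finset.sum_le_sum_of_subset_of_nonneg (Finset.filter_subset _ _)
          fun _ _ _ => sq_nonneg _

/-- The rank of `U diag(1_T w) Uᵀ` and of its Hadamard square. -/
theorem rank_D (U : Matrix (Fin n) (Fin n) ℝ) (w : Fin n → ℝ) (T : Finset (Fin n)) :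
    (D U (fun s => if s ∈ T then w s else 0)).rank ≤ T.card := by
  have h1 : D U (fun s => if s ∈ T then w s else 0) =
      (Matrix.of fun (i : Fin n) (s : T) => w s * U i s) *
        (Matrix.of fun (s : T) (j : Fin n) => U j s) := by
    ext i j
    rw [D_apply, Matrix.mul_apply]
    simp only [Matrix.of_apply]
    rw [Finset.sum_coe_sort T (fun s => w s * U i s * U j s)]
    rw [← Finset.sum_filter_add_sum_filter_not univ (fun s => s ∈ T)]
    have h2 : ∑ x ∈ univ.filter (fun s => ¬ s ∈ T),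
        (if x ∈ T then w x else 0) * (U i x * U j x) = 0 := by
      apply Finset.sum_eq_zero
      intro x hx
      rw [Finset.mem_filter] at hx
      rw [if_neg hx.2, zero_mul]
    rw [h2, add_zero, Finset.filter_mem_eq_inter, Finset.univ_inter]
    apply Finset.sum_congr rfl
    intro x hx
    rw [if_pos hx]; ring
  rw [h1]
  refine (Matrix.rank_mul_le_left _ _).trans ?_
  refine (Matrix.rank_le_card_width _).trans ?_
  simp

theorem rank_D_sq (U : Matrix (Fin n) (Fin n) ℝ) (w : Fin n → ℝ) (T : Finset (Fin n)) :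
    (Matrix.of fun i j => (D U (fun s => if s ∈ T then w s else 0)) i j ^ 2).rank ≤
      T.card ^ 2 := by
  have h0 : ∀ i j, D U (fun s => if s ∈ T then w s else 0) i j =
      ∑ s : T, w s * U i s * U j s := by
    intro i j
    rw [D_apply]
    rw [Finset.sum_coe_sort T (fun s => w s * U i s * U j s)]
    rw [← Finset.sum_filter_add_sum_filter_not univ (fun s => s ∈ T)]
    have h2 : ∑ x ∈ univ.filter (fun s => ¬ s ∈ T),
        (if x ∈ T then w x else 0) * (U i x * U j x) = 0 := by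
      apply Finset.sum_eq_zero
      intro x hx
      rw [Finset.mem_filter] at hx
      rw [if_neg hx.2, zero_mul]
    rw [h2, add_zero, Finset.filter_mem_eq_inter, Finset.univ_inter]
    apply Finset.sum_congr rfl
    intro x hx
    rw [if_pos hx]; ring
  have h1 : (Matrix.of fun i j => (D U (fun s => if s ∈ T then w s else 0)) i j ^ 2) =
      (Matrix.of fun (i : Fin n) (s : T × T) => w s.1 * w s.2 * (U i s.1 * U i s.2)) *
        (Matrix.of fun (s : T × T) (j : Fin n) => U j s.1 * U j s.2) := by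
    ext i j
    rw [Matrix.mul_apply]
    simp only [Matrix.of_apply]
    rw [h0, sq, Finset.sum_mul_sum, ← Finset.univ_product_univ, Finset.sum_product]
    apply Finset.sum_congr rfl
    intro x _
    apply Finset.sum_congr rfl
    intro y _
    ring
  rw [h1]
  refine (Matrix.rank_mul_le_left _ _).trans ?_
  refine (Matrix.rank_le_card_width _).trans ?_
  rw [Fintype.card_prod, sq]
  simp

theorem rank_add_le' (A B : Matrix (Fin n) (Fin n) ℝ) : (A + B).rank ≤ A.rank + B.rank := by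
  unfold Matrix.rank
  rw [Matrix.mulVecLin_add]
  refine (Submodule.finrank_mono (?_ : _ ≤ LinearMap.range A.mulVecLin ⊔
    LinearMap.range B.mulVecLin)).trans (Submodule.finrank_add_le_finrank_add_finrank _ _)
  rintro _ ⟨x, rfl⟩
  exact Submodule.add_mem_sup ⟨x, rfl⟩ ⟨x, rfl⟩

theorem main_ineq (A : Matrix (Fin n) (Fin n) ℝ) (hA : A.IsHermitian)
    (h01 : ∀ i j, A i j = 0 ∨ A i j = 1) (hd : ∀ i, A i i = 0) (S : Finset (Fin n)) (m : ℕ)
    (hS : ∀ s ∈ S, hA.eigenvalues s ^ 2 ≤ 3) (htr : ∑ s ∈ S, hA.eigenvalues s = m)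
    (hsq : ∑ s ∈ S, hA.eigenvalues s ^ 2 = 3 * m) :
    (m : ℝ) ^ 2 ≤ ((Sᶜ.card ^ 2 + Sᶜ.card : ℕ) : ℝ) * (24 * m) := by
  classical
  obtain ⟨U, h1, h2, h3⟩ := exists_D A hA
  set μ := hA.eigenvalues with hμ
  set C := D U (fun s => if s ∈ S then μ s else 0) with hC
  set B := D U (fun s => if s ∈ Sᶜ then μ s else 0) with hB
  have hBC : ∀ i j, B i j = A i j - C i j := by
    intro i j
    rw [hB, hC]
    conv_rhs => rw [h3]
    rw [D_apply, D_apply, D_apply, ← Finset.sum_sub_distrib]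
    apply Finset.sum_congr rfl
    intro s _
    by_cases hs : s ∈ S <;> simp [hs]
  have hw : ∀ s, (if s ∈ S then μ s else 0) ^ 2 ≤ (3 : ℝ) := by
    intro s
    by_cases hs : s ∈ S
    · simp only [hs, if_true]; exact hS s hs
    · simp [hs]
  have hCle : ∀ i j, C i j ^ 2 ≤ 3 := fun i j => D_entry_le U h1 h2 _ 3 hw i j
  have hCfrob : ∑ i, ∑ j, C i j ^ 2 = 3 * m := by
    rw [hC, D_frob U h1, ← hsq]
    rw [← Finset.sum_filter_add_sum_filter_not univ (fun s => s ∈ S)]
    rw [Finset.filter_mem_eq_inter, Finset.univ_inter]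
    have : ∑ x ∈ univ.filter (fun s => ¬ s ∈ S), (if x ∈ S then μ x else 0) ^ 2 = 0 := by
      apply Finset.sum_eq_zero
      intro x hx
      rw [Finset.mem_filter] at hx
      rw [if_neg hx.2]; ring
    rw [this, add_zero]
    exact Finset.sum_congr rfl fun s hs => by rw [if_pos hs]
  have hCtr : ∑ i, C i i = m := by
    have : C.trace = ∑ s, (if s ∈ S then μ s else 0) := D_trace U h1 _
    rw [Finset.sum_ite_mem, Finset.univ_inter, htr] at this
    exact this
  set N : Matrix (Fin n) (Fin n) ℝ := Matrix.of (fun i j => B i j ^ 2) - B with hN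
  have hNij : ∀ i j, N i j = C i j ^ 2 + (1 - 2 * A i j) * C i j := by
    intro i j
    rw [hN, Matrix.sub_apply, Matrix.of_apply, hBC]
    rcases h01 i j with h | h <;> rw [h] <;> ring
  have hNherm : N.IsHermitian := by
    ext i j
    rw [Matrix.conjTranspose_apply, hN, Matrix.sub_apply, Matrix.sub_apply, Matrix.of_apply,
      Matrix.of_apply, hB, D_symm U _ j i]
    simp
  have hNrank : N.rank ≤ Sᶜ.card ^ 2 + Sᶜ.card := by
    rw [hN, sub_eq_add_neg]
    refine (rank_add_le' _ _).trans ?_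
    have e1 := rank_D_sq U μ Sᶜ
    have e2 := rank_D U μ Sᶜ
    have e3 : (-B).rank = B.rank := by
      have e4 : (-B).rank ≤ B.rank := by
        rw [show -B = (-1 : Matrix (Fin n) (Fin n) ℝ) * B by simp]
        exact Matrix.rank_mul_le_right _ _
      have e5 : B.rank ≤ (-B).rank := by
        conv_lhs => rw [show B = (-1 : Matrix (Fin n) (Fin n) ℝ) * (-B) by simp]
        exact Matrix.rank_mul_le_right _ _
      exact le_antisymm e4 e5
    rw [e3]
    exact Nat.add_le_add e1 e2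
  have hNtr : (m : ℝ) ≤ N.trace := by
    rw [← hCtr]
    unfold Matrix.trace
    apply Finset.sum_le_sum
    intro i _
    rw [Matrix.diag_apply, hNij, hd]
    nlinarith [sq_nonneg (C i i)]
  have hNfrob : ∑ i, ∑ j, N i j ^ 2 ≤ 24 * m := by
    calc ∑ i, ∑ j, N i j ^ 2 ≤ ∑ i, ∑ j, 8 * C i j ^ 2 := by
          apply Finset.sum_le_sum
          intro i _
          apply Finset.sum_le_sum
          intro j _
          rw [hNij]
          have e1 := hCle i j
          have e2 : (1 - 2 * A i j) ^ 2 = 1 := by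
            rcases h01 i j with h | h <;> rw [h] <;> norm_num
          set c := C i j
          set a := 1 - 2 * A i j
          have e3 : (c ^ 2 + a * c) ^ 2 + (c ^ 2 - a * c) ^ 2 = 2 * (c ^ 2 * c ^ 2) +
            2 * (a ^ 2 * c ^ 2) := by ring
          rw [e2] at e3
          have e4 : c ^ 2 * c ^ 2 ≤ 3 * c ^ 2 := mul_le_mul_of_nonneg_right e1 (sq_nonneg _)
          nlinarith [sq_nonneg (c ^ 2 - a * c)]
      _ = 8 * ∑ i, ∑ j, C i j ^ 2 := by
          rw [Finset.mul_sum]
          exact Finset.sum_congr rfl fun i _ => by rw [Finset.mul_sum]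
      _ = 24 * m := by rw [hCfrob]; ring
  have h4 := trace_sq_le N hNherm _ hNrank
  calc (m : ℝ) ^ 2 ≤ N.trace ^ 2 := pow_le_pow_left₀ (by positivity) hNtr 2
    _ ≤ ((Sᶜ.card ^ 2 + Sᶜ.card : ℕ) : ℝ) * ∑ i, ∑ j, N i j ^ 2 := h4
    _ ≤ _ := mul_le_mul_of_nonneg_left hNfrob (by positivity)

end Q116.Golden
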